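import Mathlib

/-!
# The tolerant learning hierarchy is dense

The key fact is that `E ≤ F` in the tolerant learning hierarchy if and only if every c.e. set `A`
has a finite subset `D` such that every c.e. set `B` with `D ⊆ B ⊆ A` which is `E`-equivalent to `A`
is also `F`-equivalent to `A`. Given `E < F` one finds an `A` and sets `B 0, B 1, ...` converging to
`A` from below, all `F`-equivalent but none `E`-equivalent to `A`; the relation `G` between `E` and
`F` separates the `B k` with `k` odd from `A`, but not the `B k` with `k` even, by a partition of the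
c.e. sets which is locally constant away from `A`.
-/

set_option autoImplicit false

namespace Pool.Agent.Results.MP_555fce_lc.DensityTLH

open Filter

/-- `W e` is the `e`-th c.e. set: the domain of the `e`-th partial computable function. -/
def W (e : ℕ) : Set ℕ :=
  {n | ((Denumerable.ofNat Nat.Partrec.Code e).eval n).Dom}

/-- A tolerance relation: an equivalence relation on `ℕ` such that indices of the same c.e. set are
equivalent. -/
structure Tolerance where
  /-- the relation -/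
  rel : ℕ → ℕ → Prop
  equiv : Equivalence rel
  ce : ∀ e e' : ℕ, W e = W e' → rel e e'

/-- The initial segment of length `s` of an enumeration. -/
def seg (μ : ℕ → ℕ) (s : ℕ) : List ℕ := (List.range s).map μ

/-- The family `K` is `E`-learnable: some (arbitrary) learner `M` is, for every `e` with `W e ∈ K`
and every enumeration `μ` of `W e`, eventually constant on the initial segments of `μ`, with a value
that is `E`-equivalent to `e`. -/
def Learnable (E : Tolerance) (K : Set (Set ℕ)) : Prop :=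
  ∃ M : List ℕ → ℕ, ∀ e : ℕ, W e ∈ K → ∀ μ : ℕ → ℕ, Set.range μ = W e →
    ∃ i : ℕ, E.rel i e ∧ ∀ᶠ s in atTop, M (seg μ s) = i

/-- `K` is a family of nonempty c.e. sets. -/
def IsCEFamily (K : Set (Set ℕ)) : Prop := ∀ A ∈ K, A.Nonempty ∧ ∃ e, A = W e

/-- The preorder `≤_Learn` on tolerance relations: every `E`-learnable family of nonempty c.e. sets
is `F`-learnable. -/
instance : Preorder Tolerance where
  le E F := ∀ K : Set (Set ℕ), IsCEFamily K → Learnable E K → Learnable F K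
  le_refl _ _ _ h := h
  le_trans _ _ _ h h' K hK hE := h' K hK (h K hK hE)

/-- The tolerant learning hierarchy: the partial order of the equivalence classes of
`≤_Learn`. -/
abbrev TLH : Type := Antisymmetrization Tolerance (· ≤ ·)

/-! ### Proof -/

/-- an index of a c.e. set -/
noncomputable def idx (A : Set ℕ) : ℕ := by
  classical
  exact if h : ∃ e, W e = A then h.choose else 0

theorem W_idx {A : Set ℕ} (h : ∃ e, W e = A) : W (idx A) = A := by
  unfold idx
  rw [dif_pos h]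
  exact h.choose_spec

/-- the relation between sets -/
def Tolerance.S (E : Tolerance) (A B : Set ℕ) : Prop := E.rel (idx A) (idx B)

theorem rel_idx (E : Tolerance) {A : Set ℕ} {e : ℕ} (h : W e = A) : E.rel e (idx A) :=
  E.ce _ _ (by rw [W_idx ⟨e, h⟩, h])

theorem S_iff (E : Tolerance) (e e' : ℕ) : E.S (W e) (W e') ↔ E.rel e e' :=
  ⟨fun h => E.equiv.trans (rel_idx E rfl) (E.equiv.trans h (E.equiv.symm (rel_idx E rfl))),
    fun h => E.equiv.trans (E.equiv.symm (rel_idx E rfl)) (E.equiv.trans h (rel_idx E rfl))⟩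

/-- the telltale condition -/
def Telltale (E : Tolerance) (K : Set (Set ℕ)) : Prop :=
  ∀ A ∈ K, ∃ D : Finset ℕ, ↑D ⊆ A ∧ ∀ B ∈ K, ↑D ⊆ B → B ⊆ A → E.S B A

theorem seg_length (μ : ℕ → ℕ) (s : ℕ) : (seg μ s).length = s := by simp [seg]

theorem mem_seg {μ : ℕ → ℕ} {s x : ℕ} : x ∈ seg μ s ↔ ∃ k < s, μ k = x := by simp [seg]

theorem telltale_of_learnable {E : Tolerance} {K : Set (Set ℕ)} (hK : IsCEFamily K)
    (h : Learnable E K) : Telltale E K := by
  classical
  obtain ⟨M, hM⟩ := h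
  intro A hA
  by_contra hcon
  push Not at hcon
  obtain ⟨⟨a, ha⟩, eA, heA⟩ := hK A hA
  -- an enumeration of `A`
  obtain ⟨ν, hν⟩ : ∃ ν : ℕ → ℕ, Set.range ν = A :=
    (Set.to_countable A).exists_eq_range ⟨a, ha⟩ |>.imp fun f hf => hf.symm
  have hνA : ∀ n, ν n ∈ A := fun n => hν ▸ Set.mem_range_self n
  -- extension of a finite list
  have hext : ∀ σ : List ℕ, (∀ x ∈ σ, x ∈ A) →
      ∃ τ : List ℕ, σ <+: τ ∧ (∀ x ∈ τ, x ∈ A) ∧ ¬ E.rel (M τ) (idx A) := by
    intro σ hσ
    obtain ⟨B, hB, hDB, hBA, hBE⟩ := hcon σ.toFinset (by intro x hx; exact hσ x (by simpa using hx))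
    obtain ⟨⟨b, hb⟩, eB, heB⟩ := hK B hB
    obtain ⟨β, hβ⟩ : ∃ β : ℕ → ℕ, Set.range β = B :=
      (Set.to_countable B).exists_eq_range ⟨b, hb⟩ |>.imp fun f hf => hf.symm
    let μ : ℕ → ℕ := fun n => if h : n < σ.length then σ[n] else β (n - σ.length)
    have hμ : Set.range μ = B := by
      ext x
      constructor
      · rintro ⟨n, rfl⟩
        by_cases hn : n < σ.length
        · simp only [μ, dif_pos hn]
          exact hDB (by simp)
        · simp only [μ, dif_neg hn]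
          exact hβ ▸ Set.mem_range_self _
      · intro hx
        rw [← hβ] at hx
        obtain ⟨n, rfl⟩ := hx
        exact ⟨σ.length + n, by simp [μ]⟩
    obtain ⟨i, hi, hev⟩ := hM eB (heB ▸ hB) μ (by rw [hμ, heB])
    obtain ⟨s, hs1, hs2⟩ := (hev.and (eventually_ge_atTop σ.length)).exists
    refine ⟨seg μ s, ?_, ?_, ?_⟩
    · rw [List.prefix_iff_eq_take]
      refine List.ext_getElem (by simp [seg_length, hs2]) fun n h1 h2 => ?_
      simp [seg, μ, h1]
    · intro x hx
      obtain ⟨k, -, rfl⟩ := mem_seg.1 hx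
      exact hBA (hμ ▸ Set.mem_range_self k)
    · rw [hs1]
      intro hiA
      apply hBE
      refine E.equiv.trans ?_ hiA
      exact E.equiv.trans (E.equiv.symm (rel_idx E heB.symm)) (E.equiv.symm hi)
  choose! ext hext1 hext2 hext3 using hext
  -- the sequence of lists
  let L : ℕ → List ℕ := fun n => Nat.rec [] (fun n l => ext l ++ [ν n]) n
  have L0 : L 0 = [] := rfl
  have LS : ∀ n, L (n + 1) = ext (L n) ++ [ν n] := fun n => rfl
  have LA : ∀ n, ∀ x ∈ L n, x ∈ A := by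
    intro n
    induction n with
    | zero => simp [L0]
    | succ n ih =>
      intro x hx
      rw [LS, List.mem_append] at hx
      rcases hx with hx | hx
      · exact hext2 _ ih x hx
      · rw [List.mem_singleton.1 hx]; exact hνA n
  have Lstep : ∀ n, ext (L n) <+: L (n + 1) := fun n => by rw [LS]; exact List.prefix_append _ _
  have Lpre1 : ∀ n, L n <+: L (n + 1) := fun n => (hext1 _ (LA n)).trans (Lstep n)
  have Lpre : ∀ m n, m ≤ n → L m <+: L n := by
    intro m n hmn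
    induction hmn with
    | refl => exact List.prefix_rfl
    | step _ ih => exact ih.trans (Lpre1 _)
  have Llen : ∀ n, n ≤ (L n).length := by
    intro n
    induction n with
    | zero => simp
    | succ n ih =>
      rw [LS, List.length_append, List.length_singleton]
      have := (hext1 _ (LA n)).length_le
      omega
  let μ : ℕ → ℕ := fun k => (L (k + 1))[k]'(Llen (k + 1))
  have hμL : ∀ n k, ∀ (h : k < (L n).length), μ k = (L n)[k] := by
    intro n k h
    rcases le_total (k + 1) n with h1 | h1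
    · exact (Lpre _ _ h1).getElem _
    · exact ((Lpre _ _ h1).getElem _).symm
  have hseg : ∀ n (τ : List ℕ), τ <+: L n → seg μ τ.length = τ := by
    intro n τ hτ
    refine List.ext_getElem (seg_length _ _) fun k h1 h2 => ?_
    have h3 : k < (L n).length := lt_of_lt_of_le h2 hτ.length_le
    have : (seg μ τ.length)[k] = μ k := by simp [seg]
    rw [this, hμL n k h3]
    exact (hτ.getElem h2).symm
  have hμA : Set.range μ = A := by
    ext x
    constructor
    · rintro ⟨k, rfl⟩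
      exact LA (k + 1) _ (List.getElem_mem _)
    · intro hx
      rw [← hν] at hx
      obtain ⟨n, rfl⟩ := hx
      have hmem : ν n ∈ L (n + 1) := by rw [LS]; simp
      obtain ⟨k, hk, hk2⟩ := List.getElem_of_mem hmem
      exact ⟨k, by rw [hμL (n + 1) k hk, hk2]⟩
  obtain ⟨i, hi, hev⟩ := hM eA (heA ▸ hA) μ (by rw [hμA, heA])
  obtain ⟨s, hs⟩ := hev.exists_forall_of_atTop
  have hlen : s ≤ (ext (L s)).length :=
    le_trans (Llen s) (hext1 _ (LA s)).length_le
  have h1 := hs _ hlen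
  rw [hseg (s + 1) _ (Lstep s)] at h1
  apply hext3 _ (LA s)
  rw [h1]
  exact E.equiv.trans hi (rel_idx E heA.symm)

theorem learnable_of_telltale {E : Tolerance} {K : Set (Set ℕ)} 
    (h : Telltale E K) : Learnable E K := by
  classical
  choose! D hD1 hD2 using h
  let good : List ℕ → ℕ → Prop := fun σ e =>
    W e ∈ K ∧ (↑(D (W e)) ⊆ {x | x ∈ σ}) ∧ ({x | x ∈ σ} ⊆ W e)
  refine ⟨fun σ => if h : ∃ e, good σ e then Nat.find h else 0, ?_⟩
  intro e₀ he₀ μ hμ
  let P : ℕ → Prop := fun e => W e ∈ K ∧ (↑(D (W e)) ⊆ W e₀) ∧ (W e₀ ⊆ W e)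
  have hP : ∃ e, P e := ⟨e₀, he₀, hD1 _ he₀, subset_rfl⟩
  refine ⟨Nat.find hP, ?_, ?_⟩
  · obtain ⟨h1, h2, h3⟩ := Nat.find_spec hP
    exact E.equiv.symm ((S_iff E _ _).1 (hD2 _ h1 _ he₀ h2 h3))
  · have hsub : ∀ s, {x | x ∈ seg μ s} ⊆ W e₀ := by
      intro s x hx
      obtain ⟨k, -, rfl⟩ := mem_seg.1 hx
      exact hμ ▸ Set.mem_range_self k
    have hfin : ∀ T : Finset ℕ, ↑T ⊆ W e₀ → ∀ᶠ s in atTop, ↑T ⊆ {x | x ∈ seg μ s} := by
      intro T hT
      have : ∀ x ∈ T, ∀ᶠ s in atTop, x ∈ seg μ s := by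
        intro x hx
        have hx' : x ∈ Set.range μ := hμ ▸ hT hx
        obtain ⟨k, hk⟩ := hx'
        filter_upwards [eventually_gt_atTop k] with s hs
        exact mem_seg.2 ⟨k, hs, hk⟩
      filter_upwards [(Finset.eventually_all T).2 this] with s hs x hx
      exact hs x hx
    have hgood : ∀ᶠ s in atTop, good (seg μ s) (Nat.find hP) := by
      obtain ⟨h1, h2, h3⟩ := Nat.find_spec hP
      filter_upwards [hfin _ h2] with s hs
      exact ⟨h1, hs, (hsub s).trans h3⟩
    have hbad : ∀ e < Nat.find hP, ∀ᶠ s in atTop, ¬ good (seg μ s) e := by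
      intro e he
      have hnP := Nat.find_min hP he
      by_cases h1 : W e ∈ K
      · by_cases h2 : ↑(D (W e)) ⊆ W e₀
        · have h3 : ¬ W e₀ ⊆ W e := fun h3 => hnP ⟨h1, h2, h3⟩
          obtain ⟨x, hx, hx2⟩ := Set.not_subset.1 h3
          filter_upwards [hfin {x} (by simpa using hx)] with s hs hg
          exact hx2 (hg.2.2 (hs (by simp)))
        · exact Eventually.of_forall fun s hg => h2 (hg.2.1.trans (hsub s))
      · exact Eventually.of_forall fun s hg => h1 hg.1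
    have hbad' : ∀ᶠ s in atTop, ∀ e < Nat.find hP, ¬ good (seg μ s) e :=
      (eventually_all_finite (Set.finite_lt_nat (Nat.find hP))).2 hbad
    filter_upwards [hgood, hbad'] with s hs1 hs2
    have hex : ∃ e, good (seg μ s) e := ⟨_, hs1⟩
    simp only [dif_pos hex]
    rw [Nat.find_eq_iff]
    exact ⟨hs1, fun n hn => hs2 n hn⟩

/-- the germ condition -/
def Germ (E F : Tolerance) : Prop :=
  ∀ A : Set ℕ, A.Nonempty → (∃ e, A = W e) → ∃ D : Finset ℕ, ↑D ⊆ A ∧
    ∀ B : Set ℕ, B.Nonempty → (∃ e, B = W e) → ↑D ⊆ B → B ⊆ A → E.S B A → F.S B A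

theorem le_iff_germ (E F : Tolerance) : E ≤ F ↔ Germ E F := by
  classical
  constructor
  · intro h A hA hAe
    by_contra hcon
    push Not at hcon
    obtain ⟨eA, rfl⟩ := hAe
    let K : Set (Set ℕ) := {B | B.Nonempty ∧ (∃ e, B = W e) ∧ E.S B (W eA)}
    have hK : IsCEFamily K := fun B hB => ⟨hB.1, hB.2.1⟩
    have hKA : W eA ∈ K := ⟨hA, ⟨eA, rfl⟩, E.equiv.refl _⟩
    have h1 : Learnable E K := by
      refine ⟨fun _ => eA, fun e he μ _ => ⟨eA, ?_, Eventually.of_forall fun _ => rfl⟩⟩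
      exact E.equiv.symm ((S_iff E _ _).1 he.2.2)
    obtain ⟨D, hD1, hD2⟩ := telltale_of_learnable hK (h K hK h1) _ hKA
    obtain ⟨B, hB1, hB2, hB3, hB4, hB5, hB6⟩ := hcon D hD1
    exact hB6 (hD2 B ⟨hB1, hB2, hB5⟩ hB3 hB4)
  · intro h K hK hE
    apply learnable_of_telltale
    have hT := telltale_of_learnable hK hE
    intro A hA
    obtain ⟨hA1, hA2⟩ := hK A hA
    obtain ⟨D, hD1, hD2⟩ := hT A hA
    obtain ⟨D', hD1', hD2'⟩ := h A hA1 hA2
    refine ⟨D ∪ D', by simpa using ⟨hD1, hD1'⟩, fun B hB hDB hBA => ?_⟩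
    rw [Finset.coe_union, Set.union_subset_iff] at hDB
    exact hD2' B (hK B hB).1 (hK B hB).2 hDB.2 hBA (hD2 B hB hDB.1 hBA)

theorem dense {E F : Tolerance} (hEF : E ≤ F) (hFE : ¬ F ≤ E) :
    ∃ G : Tolerance, (E ≤ G ∧ ¬ G ≤ E) ∧ (G ≤ F ∧ ¬ F ≤ G) := by
  classical
  rw [le_iff_germ] at hEF hFE
  simp only [Germ] at hFE
  push Not at hFE
  obtain ⟨A, hA, ⟨eA, heA⟩, hbad⟩ := hFE
  obtain ⟨ν, hν⟩ : ∃ ν : ℕ → ℕ, Set.range ν = A :=
    (Set.to_countable A).exists_eq_range hA |>.imp fun f hf => hf.symm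
  have hνA : ∀ n, ν n ∈ A := fun n => hν ▸ Set.mem_range_self n
  -- choose bad sets and points
  have hbad' : ∀ D : Finset ℕ, ↑D ⊆ A → ∃ (B : Set ℕ) (x : ℕ), B.Nonempty ∧ (∃ e, B = W e) ∧
      ↑D ⊆ B ∧ B ⊆ A ∧ F.S B A ∧ ¬ E.S B A ∧ x ∈ A ∧ x ∉ B := by
    intro D hD
    obtain ⟨B, h1, h2, h3, h4, h5, h6⟩ := hbad D hD
    have hne : ¬ A ⊆ B := fun h => h6 (by
      rw [Set.Subset.antisymm h4 h]; exact E.equiv.refl _)
    obtain ⟨x, hx, hx2⟩ := Set.not_subset.1 hne
    exact ⟨B, x, h1, h2, h3, h4, h5, h6, hx, hx2⟩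
  choose! Bf xf b1 b2 b3 b4 b5 b6 b7 b8 using hbad'
  obtain ⟨D, D0, DS⟩ : ∃ D : ℕ → Finset ℕ, D 0 = ∅ ∧
      ∀ n, D (n + 1) = insert (xf (D n)) (insert (ν n) (D n)) :=
    ⟨fun n => Nat.rec ∅ (fun n d => insert (xf d) (insert (ν n) d)) n, rfl, fun _ => rfl⟩
  have DA : ∀ n, (↑(D n) : Set ℕ) ⊆ A := by
    intro n
    induction n with
    | zero => simp [D0]
    | succ n ih =>
      rw [DS]
      intro x hx
      rw [Finset.mem_coe, Finset.mem_insert, Finset.mem_insert] at hx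
      rcases hx with rfl | rfl | hx
      · exact b7 _ ih
      · exact hνA n
      · exact ih hx
  have Dmono : Monotone D := by
    refine monotone_nat_of_le_succ fun n => ?_
    rw [DS]
    exact (Finset.subset_insert _ _).trans (Finset.subset_insert _ _)
  have DmonoS : ∀ {m n}, m ≤ n → (↑(D m) : Set ℕ) ⊆ ↑(D n) := fun h =>
    Finset.coe_subset.2 (Dmono h)
  have Dcov : ∀ x ∈ A, ∃ n, x ∈ D n := by
    intro x hx
    rw [← hν] at hx
    obtain ⟨n, rfl⟩ := hx
    exact ⟨n + 1, by rw [DS]; simp⟩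
  have Dcovfin : ∀ T : Finset ℕ, (↑T : Set ℕ) ⊆ A → ∃ n, ∀ m, n ≤ m → (↑T : Set ℕ) ⊆ ↑(D m) := by
    intro T
    induction T using Finset.induction_on with
    | empty => intro _; exact ⟨0, fun m _ => by simp⟩
    | insert a T ha ih =>
      intro h
      rw [Finset.coe_insert, Set.insert_subset_iff] at h
      obtain ⟨n, hn⟩ := ih h.2
      obtain ⟨n', hn'⟩ := Dcov a h.1
      refine ⟨max n n', fun m hm => ?_⟩
      rw [Finset.coe_insert, Set.insert_subset_iff]
      exact ⟨DmonoS (le_trans (le_max_right _ _) hm) hn', hn m (le_trans (le_max_left _ _) hm)⟩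
  let B : ℕ → Set ℕ := fun n => Bf (D n)
  have BD : ∀ n, (↑(D n) : Set ℕ) ⊆ B n := fun n => b3 _ (DA n)
  have BnD : ∀ n, ¬ (↑(D (n + 1)) : Set ℕ) ⊆ B n := by
    intro n h
    apply b8 _ (DA n)
    apply h
    rw [DS]; simp
  -- the colour
  let col : Set ℕ → Prop := fun C =>
    C ⊆ A ∧ ∃ k, (↑(D (2 * k)) : Set ℕ) ⊆ C ∧ ¬ (↑(D (2 * k + 1)) : Set ℕ) ⊆ C
  let P : Set ℕ → Prop := fun C => E.S C A ∨ col C
  have colEven : ∀ k, col (B (2 * k)) := fun k => ⟨b4 _ (DA _), k, BD _, BnD _⟩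
  have colOdd : ∀ k, ¬ col (B (2 * k + 1)) := by
    rintro k ⟨-, j, h1, h2⟩
    rcases Nat.lt_or_ge k j with h | h
    · exact BnD (2 * k + 1) ((DmonoS (by omega)).trans h1)
    · exact h2 ((DmonoS (by omega)).trans (BD _))
  let G : Tolerance :=
    { rel := fun e e' => F.rel e e' ∧ (P (W e) ↔ P (W e'))
      equiv := ⟨fun e => ⟨F.equiv.refl e, Iff.rfl⟩,
        fun h => ⟨F.equiv.symm h.1, h.2.symm⟩,
        fun h h' => ⟨F.equiv.trans h.1 h'.1, h.2.trans h'.2⟩⟩
      ce := fun e e' h => ⟨F.ce e e' h, by rw [h]⟩ }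
  have GS : ∀ C C' : Set ℕ, (∃ e, C = W e) → (∃ e, C' = W e) →
      (G.S C C' ↔ F.S C C' ∧ (P C ↔ P C')) := by
    rintro C C' ⟨e, rfl⟩ ⟨e', rfl⟩
    rw [S_iff, S_iff]
  have PA : P A := Or.inl (E.equiv.refl _)
  refine ⟨G, ⟨(le_iff_germ E G).2 ?_, fun h => ?_⟩, ⟨(le_iff_germ G F).2 ?_, fun h => ?_⟩⟩
  · -- `E ≤ G`
    intro C hC hCe
    obtain ⟨T, hT1, hT2⟩ := hEF C hC hCe
    by_cases hCA : E.S C A
    · refine ⟨T, hT1, fun X hX hXe hTX hXC hE => ?_⟩
      rw [GS X C hXe hCe]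
      refine ⟨hT2 X hX hXe hTX hXC hE, ?_⟩
      have : E.S X A := E.equiv.trans hE hCA
      exact ⟨fun _ => Or.inl hCA, fun _ => Or.inl this⟩
    · -- the colour is locally constant at `C`
      have hcol : ∃ T' : Finset ℕ, (↑T' : Set ℕ) ⊆ C ∧
          ∀ X : Set ℕ, (↑T' : Set ℕ) ⊆ X → X ⊆ C → (col X ↔ col C) := by
        by_cases hsub : C ⊆ A
        · have hne : ¬ A ⊆ C := fun h => hCA (by
            rw [Set.Subset.antisymm hsub h]; exact E.equiv.refl _)
          obtain ⟨x, hx, hxC⟩ := Set.not_subset.1 hne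
          obtain ⟨n, hn⟩ := Dcov x hx
          refine ⟨(D n).filter (· ∈ C), by intro y hy; simpa using (Finset.mem_filter.1 hy).2, ?_⟩
          intro X hX hXC
          have key : ∀ m, ((↑(D m) : Set ℕ) ⊆ X ↔ (↑(D m) : Set ℕ) ⊆ C) := by
            intro m
            refine ⟨fun h => h.trans hXC, fun h => ?_⟩
            rcases le_total n m with hnm | hnm
            · exact absurd (h (DmonoS hnm hn)) hxC
            · intro y hy
              exact hX (by simpa using ⟨DmonoS hnm hy, h hy⟩)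
          simp only [col, key]
          exact ⟨fun h => ⟨hsub, h.2⟩, fun h => ⟨hXC.trans hsub, h.2⟩⟩
        · obtain ⟨x, hx, hxA⟩ := Set.not_subset.1 hsub
          refine ⟨{x}, by simpa using hx, fun X hX _ => ?_⟩
          refine ⟨fun h => absurd (h.1 (hX (by simp))) hxA, fun h => absurd h.1 hsub⟩
      obtain ⟨T', hT1', hT2'⟩ := hcol
      refine ⟨T ∪ T', by simpa using ⟨hT1, hT1'⟩, fun X hX hXe hTX hXC hE => ?_⟩
      rw [Finset.coe_union, Set.union_subset_iff] at hTX
      rw [GS X C hXe hCe]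
      refine ⟨hT2 X hX hXe hTX.1 hXC hE, ?_⟩
      have hXA : ¬ E.S X A := fun h' => hCA (E.equiv.trans (E.equiv.symm hE) h')
      simp only [P, hXA, hCA, false_or]
      exact hT2' X hTX.2 hXC
  · -- `¬ G ≤ E`
    obtain ⟨T, hT1, hT2⟩ := (le_iff_germ G E).1 h A hA ⟨eA, heA⟩
    obtain ⟨n, hn⟩ := Dcovfin T hT1
    have hBn := hT2 (B (2 * n)) (b1 _ (DA _)) (b2 _ (DA _)) ((hn _ (by omega)).trans (BD _))
      (b4 _ (DA _))
    refine b6 _ (DA (2 * n)) (hBn ?_)
    rw [GS _ _ (b2 _ (DA _)) ⟨eA, heA⟩]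
    exact ⟨b5 _ (DA _), ⟨fun _ => PA, fun _ => Or.inr (colEven n)⟩⟩
  · -- `G ≤ F`
    intro C hC hCe
    refine ⟨∅, by simp, fun X hX hXe _ _ hG => ((GS X C hXe hCe).1 hG).1⟩
  · -- `¬ F ≤ G`
    obtain ⟨T, hT1, hT2⟩ := (le_iff_germ F G).1 h A hA ⟨eA, heA⟩
    obtain ⟨n, hn⟩ := Dcovfin T hT1
    have hBn := hT2 (B (2 * n + 1)) (b1 _ (DA _)) (b2 _ (DA _)) ((hn _ (by omega)).trans (BD _))
      (b4 _ (DA _)) (b5 _ (DA _))
    rw [GS _ _ (b2 _ (DA _)) ⟨eA, heA⟩] at hBn
    rcases hBn.2.2 PA with h1 | h1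
    · exact b6 _ (DA (2 * n + 1)) h1
    · exact colOdd n h1

/-- The tolerant learning hierarchy is dense: strictly between any two degrees `a < b` there is a
third one. -/
theorem result : ∀ a b : TLH, a < b → ∃ c : TLH, a < c ∧ c < b := by
  intro a b
  induction a using Antisymmetrization.ind with
  | _ E =>
  induction b using Antisymmetrization.ind with
  | _ F =>
  intro h
  have h' : E < F := toAntisymmetrization_lt_toAntisymmetrization_iff.1 h
  obtain ⟨G, hG1, hG2⟩ := dense h'.1 h'.2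
  exact ⟨toAntisymmetrization (· ≤ ·) G,
    toAntisymmetrization_lt_toAntisymmetrization_iff.2 (lt_iff_le_not_ge.2 hG1),
    toAntisymmetrization_lt_toAntisymmetrization_iff.2 (lt_iff_le_not_ge.2 hG2)⟩

end Pool.Agent.Results.MP_555fce_lc.DensityTLH
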